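import Mathlib

open scoped ENNReal InnerProductSpace

namespace Pool.Agent.Results.MP_632fda_an.Weakenings

section Defs
variable {X : Type} [NormedAddCommGroup X] [NormedSpace ℂ X]

/-- kernel of `T ^ k` -/
def N (T : X →L[ℂ] X) (k : ℕ) : Submodule ℂ X := LinearMap.ker ((T : X →ₗ[ℂ] X) ^ k)

/-- range of `T ^ k` -/
def R (T : X →L[ℂ] X) (k : ℕ) : Submodule ℂ X := LinearMap.range ((T : X →ₗ[ℂ] X) ^ k)

/-- ascent -/
noncomputable def asc (T : X →L[ℂ] X) : ℕ∞ :=
  sInf {m : ℕ∞ | ∃ k : ℕ, m = k ∧ N T (k + 1) = N T k}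

/-- descent -/
noncomputable def dsc (T : X →L[ℂ] X) : ℕ∞ :=
  sInf {m : ℕ∞ | ∃ k : ℕ, m = k ∧ R T (k + 1) = R T k}

def LeftDrazin (T : X →L[ℂ] X) : Prop :=
  ∃ k : ℕ, asc T = k ∧ IsClosed (R T (k + 1) : Set X)

def RightDrazin (T : X →L[ℂ] X) : Prop :=
  ∃ k : ℕ, dsc T = k ∧ IsClosed (R T k : Set X)

def Drazin (T : X →L[ℂ] X) : Prop := asc T < ⊤ ∧ dsc T < ⊤

/-- dimension of a subspace: a natural number or `⊤` -/
noncomputable def edim (V : Submodule ℂ X) : ℕ∞ := Cardinal.toENat (Module.rank ℂ V)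

/-- `T - λ` -/
noncomputable def sh (T : X →L[ℂ] X) (l : ℂ) : X →L[ℂ] X := T - l • ContinuousLinearMap.id ℂ X

end Defs

section Defs2
variable {H K : Type} [NormedAddCommGroup H] [InnerProductSpace ℂ H]
  [NormedAddCommGroup K] [InnerProductSpace ℂ K]

/-- the operator matrix `M_C` -/
noncomputable def MC (A : H →L[ℂ] H) (B : K →L[ℂ] K) (C : K →L[ℂ] H) : H × K →L[ℂ] H × K :=
  (A ∘L ContinuousLinearMap.fst ℂ H K + C ∘L ContinuousLinearMap.snd ℂ H K).prod
    (B ∘L ContinuousLinearMap.snd ℂ H K)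

/-- condition (iii) -/
def CondIII (A : H →L[ℂ] H) (B : K →L[ℂ] K) : Prop :=
  ∃ δ : ℝ, 0 < δ ∧ ∀ l : ℂ, 0 < ‖l‖ → ‖l‖ < δ → edim (R (sh A l) 1)ᗮ = edim (N (sh B l) 1)

/-- `𝒮 = R(A) + N(A^p)` -/
def SS (A : H →L[ℂ] H) (p : ℕ) : Submodule ℂ H := R A 1 ⊔ N A p

/-- `𝒮^⊥` -/
noncomputable def SP (A : H →L[ℂ] H) (p : ℕ) : Submodule ℂ H := (SS A p)ᗮ

/-- `𝒯`, the closure of `N(B) ∩ R(B^p)` -/
def TT (B : K →L[ℂ] K) (p : ℕ) : Submodule ℂ K := (N B 1 ⊓ R B p).topologicalClosure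

/-- condition (E) -/
def CondE (A : H →L[ℂ] H) (B : K →L[ℂ] K) (p : ℕ) : Prop :=
  IsClosed (SS A p : Set H) ∧ edim (SP A p) = edim (TT B p)

/-- `C` equals an invertible `J : 𝒯 → 𝒮^⊥` on `𝒯` and vanishes on `𝒯^⊥` -/
def Admissible (A : H →L[ℂ] H) (B : K →L[ℂ] K) (p : ℕ) (C : K →L[ℂ] H) : Prop :=
  ∃ J : TT B p ≃L[ℂ] SP A p, (∀ t : TT B p, C t = J t) ∧ ∀ y ∈ (TT B p)ᗮ, C y = 0

end Defs2

/-- infinite-dimensional separable -/
def Sep (H : Type) [NormedAddCommGroup H] [InnerProductSpace ℂ H] : Prop :=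
  TopologicalSpace.SeparableSpace H ∧ ¬ FiniteDimensional ℂ H

section Alg
variable {X : Type} [NormedAddCommGroup X] [NormedSpace ℂ X] (T : X →L[ℂ] X)

lemma mem_N {k : ℕ} {x : X} : x ∈ N T k ↔ T^[k] x = 0 := by
  unfold N; rw [LinearMap.mem_ker, Module.End.pow_apply]; rfl

lemma mem_R {k : ℕ} {x : X} : x ∈ R T k ↔ ∃ y, T^[k] y = x := by
  unfold R; rw [LinearMap.mem_range]; simp only [Module.End.pow_apply]; rfl

lemma it_zero (k : ℕ) : T^[k] 0 = 0 := Function.iterate_fixed (map_zero T) k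

lemma it_add (k : ℕ) (x y : X) : T^[k] (x + y) = T^[k] x + T^[k] y := by
  induction k with
  | zero => rfl
  | succ k ih => simp only [Function.iterate_succ_apply', ih, map_add]

lemma it_sub (k : ℕ) (x y : X) : T^[k] (x - y) = T^[k] x - T^[k] y := by
  induction k with
  | zero => rfl
  | succ k ih => simp only [Function.iterate_succ_apply', ih, map_sub]

lemma N_stab {k : ℕ} (h : N T (k + 1) = N T k) (m : ℕ) : N T (k + m) = N T k := by
  induction m with
  | zero => rfl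
  | succ m ih =>
    rw [← ih]
    ext x
    have h' := congrArg (fun V => T^[m] x ∈ V) h
    simp only [mem_N, eq_iff_iff] at h'
    rw [mem_N, mem_N, show k + (m + 1) = (k + 1) + m by ring, Function.iterate_add_apply T (k + 1) m,
      Function.iterate_add_apply T k m, h']

lemma R_stab {k : ℕ} (h : R T (k + 1) = R T k) (m : ℕ) : R T (k + m) = R T k := by
  induction m with
  | zero => rfl
  | succ m ih =>
    rw [← ih]
    ext x
    rw [mem_R, mem_R]
    constructor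
    · rintro ⟨y, rfl⟩
      exact ⟨T y, by rw [← add_assoc, Function.iterate_succ_apply]⟩
    · rintro ⟨y, rfl⟩
      have : T^[k] y ∈ R T (k + 1) := by rw [h, mem_R]; exact ⟨y, rfl⟩
      obtain ⟨z, hz⟩ := (mem_R T).1 this
      refine ⟨z, ?_⟩
      rw [show k + (m + 1) = m + (k + 1) by ring, Function.iterate_add_apply, hz,
        ← Function.iterate_add_apply, add_comm]

lemma sInf_ex {P : ℕ → Prop} (h : sInf {m : ℕ∞ | ∃ k : ℕ, m = k ∧ P k} < ⊤) :
    ∃ k : ℕ, sInf {m : ℕ∞ | ∃ k : ℕ, m = k ∧ P k} = k ∧ P k := by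
  by_cases hne : {m : ℕ∞ | ∃ k : ℕ, m = k ∧ P k}.Nonempty
  · exact csInf_mem hne
  · rw [Set.not_nonempty_iff_eq_empty] at hne
    rw [hne, sInf_empty] at h
    exact absurd h (lt_irrefl _)

lemma sInf_le' {P : ℕ → Prop} {k : ℕ} (h : P k) :
    sInf {m : ℕ∞ | ∃ k : ℕ, m = k ∧ P k} ≤ k := sInf_le ⟨k, rfl, h⟩

lemma sInf_lt {P : ℕ → Prop} {k : ℕ} (h : P k) :
    sInf {m : ℕ∞ | ∃ k : ℕ, m = k ∧ P k} < ⊤ := (sInf_le' h).trans_lt (ENat.natCast_lt_top k)

end Alg

section Q2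
variable {H K : Type} [NormedAddCommGroup H] [InnerProductSpace ℂ H] [CompleteSpace H]
  [NormedAddCommGroup K] [InnerProductSpace ℂ K] [CompleteSpace K]
  {A : H →L[ℂ] H} {B : K →L[ℂ] K} {C : K →L[ℂ] H} {p : ℕ}

omit [CompleteSpace H] [CompleteSpace K] in
lemma MC_apply (x : H) (y : K) : MC A B C (x, y) = (A x + C y, B y) := rfl

omit [CompleteSpace H] [CompleteSpace K] in
lemma MC_it0 (k : ℕ) (x : H) : (MC A B C)^[k] (x, 0) = (A^[k] x, 0) := by
  induction k with
  | zero => rfl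
  | succ k ih => simp only [Function.iterate_succ_apply', ih, MC_apply, map_zero, add_zero]

omit [CompleteSpace H] [CompleteSpace K] in
lemma MC_it2 (k : ℕ) (z : H × K) : ((MC A B C)^[k] z).2 = B^[k] z.2 := by
  induction k with
  | zero => rfl
  | succ k ih =>
    rw [Function.iterate_succ_apply', Function.iterate_succ_apply', ← ih]; rfl

theorem q2 (hA : asc A ≤ p) (hB : RightDrazin B) (hB' : dsc B ≤ p) (hp : 1 ≤ p)
    (hS : IsClosed (SS A p : Set H)) (hC : Admissible A B p C) : Drazin (MC A B C) := by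
  obtain ⟨J, hJ, hJ0⟩ := hC
  obtain ⟨a, ha, ha'⟩ := sInf_ex (hA.trans_lt (ENat.natCast_lt_top p))
  have hap : a ≤ p := by
    have : (a : ℕ∞) ≤ p := ha ▸ hA
    exact_mod_cast this
  have hN : ∀ m, N A (p + m) = N A p := by
    intro m
    obtain ⟨c, rfl⟩ := Nat.exists_eq_add_of_le hap
    rw [add_assoc, N_stab A ha', N_stab A ha']
  obtain ⟨d, hd, hcl⟩ := hB
  obtain ⟨d', hd1, hd2⟩ := sInf_ex (hB'.trans_lt (ENat.natCast_lt_top p))
  have hdd : d' = d := by
    have : (d' : ℕ∞) = d := hd1.symm.trans hd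
    exact_mod_cast this
  subst hdd
  have hdp : d' ≤ p := by
    have : (d' : ℕ∞) ≤ p := hd ▸ hB'
    exact_mod_cast this
  have hRp : R B p = R B d' := by
    obtain ⟨c, rfl⟩ := Nat.exists_eq_add_of_le hdp
    exact R_stab B hd2 c
  have hR : ∀ m, R B (p + m) = R B p := by
    intro m
    obtain ⟨c, rfl⟩ := Nat.exists_eq_add_of_le hdp
    rw [add_assoc, R_stab B hd2, R_stab B hd2]
  have hT : TT B p = N B 1 ⊓ R B p := by
    apply IsClosed.submodule_topologicalClosure_eq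
    rw [Submodule.coe_inf]
    apply IsClosed.inter
    · have : (N B 1 : Set K) = B ⁻¹' {0} := by ext x; exact mem_N B
      rw [this]; exact isClosed_singleton.preimage B.continuous
    · rw [hRp]; exact hcl
  have hTc : IsClosed (TT B p : Set K) := Submodule.isClosed_topologicalClosure _
  -- injectivity modulo `S`
  have hinj : ∀ t ∈ TT B p, C t ∈ SS A p → t = 0 := by
    intro t ht h
    have h1 := hJ ⟨t, ht⟩
    have h2 : C t ∈ (SS A p)ᗮ := by
      have := (J ⟨t, ht⟩).2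
      rw [← h1] at this; exact this
    have h3 : C t = 0 := by
      have := (Submodule.mem_orthogonal _ _).1 h2 _ h
      exact inner_self_eq_zero.1 this
    have h4 : J ⟨t, ht⟩ = 0 := Subtype.ext (by rw [← h1]; exact h3)
    have h5 := J.injective (h4.trans (map_zero J).symm)
    exact congrArg Subtype.val h5
  constructor
  · -- ascent
    have key : ∀ (m : ℕ) (z : H × K), z.2 ∈ R B p → (MC A B C)^[m] z = 0 → z.2 = 0 := by
      intro m
      induction m with
      | zero => intro z _ h; exact congrArg Prod.snd h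
      | succ m ih =>
        rintro ⟨x, y⟩ hz h
        rw [Function.iterate_succ_apply, MC_apply] at h
        have h1 : B y = 0 := by
          refine ih _ ?_ h
          obtain ⟨w, hw⟩ := (mem_R B).1 hz
          refine (mem_R B).2 ⟨B w, ?_⟩
          rw [← Function.iterate_succ_apply, Function.iterate_succ_apply', hw]
        rw [h1, MC_it0] at h
        have h2 : A x + C y ∈ N A p := by
          rw [← hN m, mem_N, Function.iterate_add_apply, show A^[m] (A x + C y) = 0 from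
            congrArg Prod.fst h, it_zero]
        apply hinj y
        · rw [hT]; exact ⟨(mem_N B).2 h1, hz⟩
        · have : C y = (A x + C y) - A x := by abel
          rw [this]
          exact Submodule.sub_mem _ (Submodule.mem_sup_right h2)
            (Submodule.mem_sup_left ((mem_R A).2 ⟨x, rfl⟩))
    apply sInf_lt (k := p + p)
    ext z
    rw [mem_N, mem_N]
    constructor
    · intro h
      rw [show p + p + 1 = (p + 1) + p by ring, Function.iterate_add_apply] at h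
      have h1 := key _ _ (by rw [MC_it2]; exact (mem_R B).2 ⟨_, rfl⟩) h
      have h2 : (MC A B C)^[p] z = (((MC A B C)^[p] z).1, 0) := Prod.ext rfl h1
      rw [Function.iterate_add_apply, h2, MC_it0]
      rw [h2, MC_it0] at h
      have h3 : ((MC A B C)^[p] z).1 ∈ N A p := by
        rw [← hN 1, mem_N]; exact congrArg Prod.fst h
      rw [(mem_N A).1 h3]; rfl
    · intro h
      rw [Function.iterate_succ_apply', h, map_zero]
  · -- descent
    have : CompleteSpace (SS A p) := hS.completeSpace_coe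
    have : CompleteSpace (TT B p) := hTc.completeSpace_coe
    set U : Submodule ℂ (H × K) := R (MC A B C) 1 ⊔ N (MC A B C) p with hU
    have hM : ∀ z, MC A B C z ∈ U := fun z =>
      Submodule.mem_sup_left ((mem_R _).2 ⟨z, rfl⟩)
    have h1 : ∀ x : H, ((x, 0) : H × K) ∈ U := by
      intro x
      obtain ⟨s, hs, u, hu, rfl⟩ := (SS A p).exists_add_mem_mem_orthogonal x
      obtain ⟨r, hr, n, hn, rfl⟩ := Submodule.mem_sup.1 hs
      obtain ⟨a, rfl⟩ := (mem_R A).1 hr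
      obtain ⟨t, ht⟩ := J.surjective ⟨u, hu⟩
      have ht1 : C t = u := by rw [hJ t, ht]
      have ht2 : B t = 0 := by
        have : (t : K) ∈ N B 1 ⊓ R B p := by rw [← hT]; exact t.2
        exact (mem_N B).1 this.1
      have : ((A^[1] a + n + u, 0) : H × K) = MC A B C (a, t) + (n, 0) := by
        rw [MC_apply, ht1, ht2]; ext
        · simp only [Function.iterate_one, Prod.fst_add]; abel
        · simp
      rw [this]
      refine U.add_mem (hM _) (Submodule.mem_sup_right ?_)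
      rw [mem_N, MC_it0, (mem_N A).1 hn]; rfl
    have h2 : ∀ w : K, ((0, B w) : H × K) ∈ U := by
      intro w
      have : ((0, B w) : H × K) = MC A B C (0, w) - (C w, 0) := by
        rw [MC_apply]; ext <;> simp
      rw [this]; exact U.sub_mem (hM _) (h1 _)
    have h2' : ∀ r ∈ R B p, ((0, r) : H × K) ∈ U := by
      intro r hr
      rw [← hR 1] at hr
      obtain ⟨w, rfl⟩ := (mem_R B).1 hr
      rw [Function.iterate_succ_apply']; exact h2 _
    have h3 : ∀ i : ℕ, ∀ z : K, B^[i] z = 0 → ∃ r ∈ R B p, (MC A B C)^[i] (0, z - r) = 0 := by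
      intro i
      induction i with
      | zero =>
        intro z hz
        exact ⟨0, Submodule.zero_mem _, by rw [show z = 0 from hz]; simp⟩
      | succ i ih =>
        intro z hz
        obtain ⟨r, hr, h⟩ := ih (B z) hz
        -- lift `r` to `r'` with `B r' = r`
        have hr' := hr
        rw [← hR 1] at hr'
        obtain ⟨w, hw⟩ := (mem_R B).1 hr'
        rw [Function.iterate_succ_apply'] at hw
        obtain ⟨t, ht, u, hu, htu⟩ := (TT B p).exists_add_mem_mem_orthogonal (z - B^[p] w)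
        have ht' : t ∈ N B 1 ⊓ R B p := hT ▸ ht
        refine ⟨B^[p] w + t, Submodule.add_mem _ ((mem_R B).2 ⟨w, rfl⟩) ht'.2, ?_⟩
        have hu' : z - (B^[p] w + t) = u := by rw [← sub_sub, htu]; abel
        have hBu : B u = B z - r := by
          rw [← hu', map_sub, map_add, hw, show B t = 0 from (mem_N B).1 ht'.1, add_zero]
        rw [hu', Function.iterate_succ_apply, MC_apply, hJ0 u hu, hBu, map_zero, add_zero, h]
    have h4 : ∀ z : H × K, z ∈ U := by
      rintro ⟨x, y⟩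
      have : B^[p] y ∈ R B (p + 1) := by rw [hR 1]; exact (mem_R B).2 ⟨y, rfl⟩
      obtain ⟨w, hw⟩ := (mem_R B).1 this
      rw [Function.iterate_succ_apply'] at hw
      have hz : B^[p] (y - B w) = 0 := by
        rw [it_sub, ← Function.iterate_succ_apply, Function.iterate_succ_apply', hw, sub_self]
      obtain ⟨r, hr, h⟩ := h3 p _ hz
      have : ((x, y) : H × K) = (x, 0) + (0, B w) + (0, r) + (0, y - B w - r) := by
        ext <;> simp
      rw [this]
      exact U.add_mem (U.add_mem (U.add_mem (h1 _) (h2 _)) (h2' r hr))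
        (Submodule.mem_sup_right ((mem_N _).2 h))
    apply sInf_lt (k := p)
    ext z
    rw [mem_R, mem_R]
    constructor
    · rintro ⟨y, rfl⟩
      exact ⟨MC A B C y, by rw [Function.iterate_succ_apply]⟩
    · rintro ⟨y, rfl⟩
      obtain ⟨r, hr, n, hn, rfl⟩ := Submodule.mem_sup.1 (h4 y)
      obtain ⟨w, rfl⟩ := (mem_R _).1 hr
      refine ⟨w, ?_⟩
      rw [it_add, (mem_N _).1 hn, add_zero, Function.iterate_succ_apply]; rfl

end Q2

section Q1

abbrev L2 : Type := lp (fun _ : ℕ × ℕ => ℂ) 2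

lemma W_bound (w : ℕ × ℕ → ℂ) (g : ℕ × ℕ → ℕ × ℕ) (hw : ∀ i, ‖w i‖ ≤ 1)
    (hg : Set.InjOn g {i | w i ≠ 0}) (x : L2) (s : Finset (ℕ × ℕ)) :
    ∑ i ∈ s, ‖w i * x (g i)‖ ^ (2 : ℝ≥0∞).toReal ≤ ‖x‖ ^ (2 : ℝ≥0∞).toReal := by
  classical
  have h2 : 0 < (2 : ℝ≥0∞).toReal := by norm_num
  calc ∑ i ∈ s, ‖w i * x (g i)‖ ^ (2 : ℝ≥0∞).toReal
      = ∑ i ∈ s.filter (fun i => w i ≠ 0), ‖w i * x (g i)‖ ^ (2 : ℝ≥0∞).toReal := by
        symm
        apply Finset.sum_subset (Finset.filter_subset _ _)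
        intro i hi hi'
        have : w i = 0 := by simpa [hi] using hi'
        simp [this]
    _ ≤ ∑ i ∈ s.filter (fun i => w i ≠ 0), ‖x (g i)‖ ^ (2 : ℝ≥0∞).toReal := by
        apply Finset.sum_le_sum
        intro i _
        apply Real.rpow_le_rpow (norm_nonneg _) _ h2.le
        rw [norm_mul]
        exact mul_le_of_le_one_left (norm_nonneg _) (hw i)
    _ = ∑ k ∈ (s.filter (fun i => w i ≠ 0)).image g, ‖x k‖ ^ (2 : ℝ≥0∞).toReal := by
        rw [Finset.sum_image]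
        intro i hi j hj h
        exact hg (Finset.mem_filter.1 hi).2 (Finset.mem_filter.1 hj).2 h
    _ ≤ _ := lp.sum_rpow_le_norm_rpow h2 x _

noncomputable def W0 (w : ℕ × ℕ → ℂ) (g : ℕ × ℕ → ℕ × ℕ) (hw : ∀ i, ‖w i‖ ≤ 1)
    (hg : Set.InjOn g {i | w i ≠ 0}) : L2 →ₗ[ℂ] L2 where
  toFun x := ⟨fun i => w i * x (g i), memℓp_gen' (W_bound w g hw hg x)⟩
  map_add' x y := by ext1; funext n; simp [mul_add]
  map_smul' c x := by ext1; funext n; simp [mul_left_comm]

lemma W0_le (w g hw hg) (x : L2) : ‖W0 w g hw hg x‖ ≤ 1 * ‖x‖ := by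
  rw [one_mul]
  exact lp.norm_le_of_forall_sum_le (by norm_num) (norm_nonneg _) (W_bound w g hw hg x)

noncomputable def W (w : ℕ × ℕ → ℂ) (g : ℕ × ℕ → ℕ × ℕ) (hw : ∀ i, ‖w i‖ ≤ 1)
    (hg : Set.InjOn g {i | w i ≠ 0}) : L2 →L[ℂ] L2 := (W0 w g hw hg).mkContinuous 1 (W0_le w g hw hg)

lemma W_le (w g hw hg) (x : L2) : ‖W w g hw hg x‖ ≤ ‖x‖ := by
  have := W0_le w g hw hg x
  rwa [one_mul] at this

/-- forward shift -/
noncomputable def Af : L2 →L[ℂ] L2 :=
  W (fun i => if i.1 = 0 then 0 else 1) (fun i => (i.1 - 1, i.2))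
    (fun i => by split_ifs <;> simp) (by
      rintro ⟨a, b⟩ h ⟨c, d⟩ h' e
      simp only [Set.mem_setOf_eq, ne_eq, ite_eq_left_iff, one_ne_zero, imp_false, not_not,
        Prod.mk.injEq] at h h' e ⊢
      omega)

/-- backward shift -/
noncomputable def Bk : L2 →L[ℂ] L2 :=
  W (fun _ => 1) (fun i => (i.1 + 1, i.2)) (fun i => by simp) (by
      rintro ⟨a, b⟩ _ ⟨c, d⟩ _ e
      simp only [Prod.mk.injEq] at e ⊢
      omega)

noncomputable def wt (i : ℕ × ℕ) : ℂ := if i.1 = 0 then 1 / ((i.2 : ℂ) + 1) else 1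

lemma wt_ne (i : ℕ × ℕ) : wt i ≠ 0 := by
  unfold wt; split_ifs
  · exact one_div_ne_zero (Nat.cast_add_one_ne_zero _)
  · exact one_ne_zero

/-- diagonal weight -/
noncomputable def Dg : L2 →L[ℂ] L2 :=
  W wt id (fun i => by
    unfold wt; split_ifs
    · rw [norm_div, norm_one, show ((i.2 : ℂ) + 1) = ((i.2 + 1 : ℕ) : ℂ) by push_cast; rfl,
        Complex.norm_natCast, div_le_one (by positivity)]
      exact_mod_cast Nat.le_add_left 1 _
    · simp) (fun _ _ _ _ h => h)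

lemma Af0 (x : L2) (j : ℕ) : Af x (0, j) = 0 := by
  show (if (0 : ℕ) = 0 then (0 : ℂ) else 1) * x (0 - 1, j) = 0
  simp
lemma Af1 (x : L2) (n j : ℕ) : Af x (n + 1, j) = x (n, j) := by
  show (if n + 1 = 0 then (0 : ℂ) else 1) * x (n + 1 - 1, j) = _
  simp
lemma Bk_ap (x : L2) (n j : ℕ) : Bk x (n, j) = x (n + 1, j) := by
  show (1 : ℂ) * x (n + 1, j) = _
  simp
lemma Dg_ap (x : L2) (i) : Dg x i = wt i * x i := rfl

lemma BkAf (x : L2) : Bk (Af x) = x := by
  ext1; funext ⟨n, j⟩; rw [Bk_ap, Af1]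

lemma BkDg (x : L2) : Bk (Dg x) = Bk x := by
  ext1; funext ⟨n, j⟩; rw [Bk_ap, Bk_ap, Dg_ap]; simp [wt]

lemma Dg_inj {x : L2} (h : Dg x = 0) : x = 0 := by
  ext1; funext i
  have : Dg x i = 0 := by rw [h]; rfl
  rw [Dg_ap] at this
  exact (mul_eq_zero.1 this).resolve_left (wt_ne i)

lemma Af_norm (x : L2) : ‖Af x‖ = ‖x‖ := by
  apply le_antisymm (W_le _ _ _ _ x)
  conv_lhs => rw [← BkAf x]
  exact W_le _ _ _ _ _

lemma Af_inner (x y : L2) : ⟪Af x, Af y⟫_ℂ = ⟪x, y⟫_ℂ :=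
  (⟨(Af : L2 →ₗ[ℂ] L2), Af_norm⟩ : L2 →ₗᵢ[ℂ] L2).inner_map_map x y

noncomputable def Bw : L2 →L[ℂ] L2 := Dg ∘L Bk

lemma Bw_ap (x : L2) : Bw x = Dg (Bk x) := rfl

noncomputable def e (i : ℕ × ℕ) : L2 := lp.single 2 i (1 : ℂ)

lemma e_ap (i k : ℕ × ℕ) : e i k = if k = i then 1 else 0 := by
  unfold e; rw [lp.single_apply, Pi.single_apply]

lemma inner_e (x : L2) (i) : ⟪e i, x⟫_ℂ = x i := by
  unfold e; rw [lp.inner_single_left]; simp

lemma Af_e (n j : ℕ) : Af (e (n, j)) = e (n + 1, j) := by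
  ext1; funext ⟨m, k⟩
  cases m with
  | zero => rw [Af0, e_ap]; simp
  | succ m => rw [Af1, e_ap, e_ap]; simp

lemma Bk_e0 (j : ℕ) : Bk (e (0, j)) = 0 := by
  ext1; funext ⟨m, k⟩; rw [Bk_ap, e_ap]; simp

lemma Dg_e (i) : Dg (e i) = wt i • e i := by
  ext1; funext k
  rw [Dg_ap, lp.coeFn_smul, Pi.smul_apply, e_ap]
  split_ifs with h
  · rw [h]; rfl
  · simp

lemma e_li : LinearIndependent ℂ (fun j : ℕ => e (0, j)) := by
  apply Orthonormal.linearIndependent
  rw [orthonormal_iff_ite]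
  intro i j
  rw [inner_e, e_ap]; simp

lemma edim_top {V : Submodule ℂ L2} (f : L2 →L[ℂ] L2) (hf : ∀ x, f x = 0 → x = 0)
    (h : ∀ j, f (e (0, j)) ∈ V) : edim V = ⊤ := by
  unfold edim
  rw [Cardinal.toENat_eq_top]
  have h1 : LinearIndependent ℂ (fun j : ℕ => f (e (0, j))) :=
    e_li.map' (f : L2 →ₗ[ℂ] L2) (LinearMap.ker_eq_bot'.2 hf)
  have h2 : LinearIndependent ℂ (fun j : ℕ => (⟨f (e (0, j)), h j⟩ : V)) :=
    LinearIndependent.of_comp V.subtype h1
  exact h2.aleph0_le_rank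

lemma res (l : ℂ) (hl : ‖l‖ < 1) : ∃ f : L2 →L[ℂ] L2, (∀ x, f x = 0 → x = 0) ∧
    ∀ x, f x = x + l • Af (f x) := by
  have hA : ‖Af‖ ≤ 1 := Af.opNorm_le_bound zero_le_one (fun x => by rw [Af_norm, one_mul])
  have h : ‖l • Af‖ < 1 := by
    rw [norm_smul]; nlinarith [norm_nonneg l, norm_nonneg Af]
  have key : ∀ x, (1 - l • Af) ((↑(Units.oneSub _ h)⁻¹ : L2 →L[ℂ] L2) x) = x := by
    intro x
    have := congrArg (fun T : L2 →L[ℂ] L2 => T x) (Units.oneSub _ h).mul_inv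
    simpa using this
  refine ⟨↑(Units.oneSub _ h)⁻¹, fun x hx => ?_, fun x => ?_⟩
  · rw [← key x, hx, map_zero]
  · have := key x
    rw [ContinuousLinearMap.sub_apply, ContinuousLinearMap.one_apply,
      ContinuousLinearMap.smul_apply] at this
    rw [← sub_eq_iff_eq_add]; exact this

lemma Af_perp (x z : L2) (hz : Bk z = 0) : ⟪Af x, z⟫_ℂ = 0 := by
  rw [lp.inner_eq_tsum]
  have : ∀ i, ⟪Af x i, z i⟫_ℂ = 0 := by
    rintro ⟨n, j⟩
    cases n with
    | zero => rw [Af0]; simp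
    | succ n => rw [← Bk_ap z, hz]; simp
  simp only [this, tsum_zero]

lemma cond3 : CondIII Af Bw := by
  refine ⟨1, one_pos, fun l _ hl => ?_⟩
  obtain ⟨f, hf, hf'⟩ := res l hl
  obtain ⟨g, hg, hg'⟩ := res (starRingEnd ℂ l) (by rwa [RCLike.norm_conj])
  rw [edim_top g hg, edim_top (Dg ∘L f) (fun x hx => hf _ (Dg_inj hx))]
  · intro j
    rw [mem_N]
    show Bw (Dg (f _)) - l • Dg (f _) = 0
    rw [Bw_ap, BkDg, hf', map_add, Bk_e0, map_smul, BkAf, zero_add, map_smul, ← hf', sub_self]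
  · intro j
    rw [Submodule.mem_orthogonal]
    intro u hu
    obtain ⟨x, rfl⟩ := (mem_R _).1 hu
    show ⟪Af x - l • x, g _⟫_ℂ = 0
    rw [inner_sub_left, inner_smul_left]
    conv_lhs => congr; rw [hg']
    rw [inner_add_right, Af_perp _ _ (Bk_e0 j), inner_smul_right, Af_inner]; ring

lemma N_Af (k : ℕ) : N Af k = ⊥ := by
  rw [eq_bot_iff]
  intro x hx
  rw [mem_N] at hx
  have hi : Function.Injective Af := Function.LeftInverse.injective BkAf
  exact hi.iterate k (hx.trans (it_zero Af k).symm)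

lemma asc_Af : asc Af = (0 : ℕ) :=
  le_antisymm (sInf_le' (by rw [N_Af, N_Af])) (by simp)

lemma leftD : LeftDrazin Af := by
  refine ⟨0, asc_Af, ?_⟩
  have : (R Af (0 + 1) : Set L2) = {x | Af (Bk x) = x} := by
    ext x
    simp only [SetLike.mem_coe, mem_R, Set.mem_setOf_eq]
    constructor
    · rintro ⟨y, rfl⟩
      show Af (Bk (Af y)) = Af y
      rw [BkAf]
    · intro h; exact ⟨_, h⟩
  rw [this]
  exact isClosed_eq (by fun_prop) continuous_id

lemma dsc_Bw : dsc Bw ≤ (1 : ℕ) := by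
  apply sInf_le'
  ext x
  rw [mem_R, mem_R]
  constructor
  · rintro ⟨y, rfl⟩; exact ⟨Bw y, rfl⟩
  · rintro ⟨y, rfl⟩
    refine ⟨Af (Af (Bk y)), ?_⟩
    show Dg (Bk (Dg (Bk _))) = Dg (Bk y)
    rw [BkAf, BkDg, BkAf]

lemma mem_SP (z : L2) : z ∈ SP Af 1 ↔ Bk z = 0 := by
  unfold SP SS
  rw [N_Af, sup_bot_eq, Submodule.mem_orthogonal]
  constructor
  · intro h
    ext1; funext ⟨n, j⟩
    rw [Bk_ap, ← inner_e, h _ ((mem_R _).2 ⟨e (n, j), Af_e n j⟩)]; rfl
  · intro h u hu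
    obtain ⟨x, rfl⟩ := (mem_R _).1 hu
    exact Af_perp x z h

lemma e_TT (j : ℕ) : e (0, j) ∈ TT Bw 1 := by
  apply Submodule.le_topologicalClosure
  refine ⟨(mem_N _).2 ?_, (mem_R _).2 ⟨(wt (0, j))⁻¹ • Af (e (0, j)), ?_⟩⟩
  · show Dg (Bk _) = 0
    rw [Bk_e0, map_zero]
  · show Dg (Bk _) = _
    rw [map_smul, BkAf, map_smul, Dg_e, smul_smul, inv_mul_cancel₀ (wt_ne _), one_smul]

lemma single_eq (i) (c : ℂ) : (lp.single 2 i c : L2) = c • e i := by
  unfold e; rw [← lp.single_smul]; simp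

lemma mem_TT (z : L2) : z ∈ TT Bw 1 ↔ Bk z = 0 := by
  constructor
  · intro h
    have : TT Bw 1 ≤ LinearMap.ker (Bk : L2 →ₗ[ℂ] L2) := by
      apply Submodule.topologicalClosure_minimal
      · intro x hx
        exact Dg_inj ((mem_N _).1 hx.1)
      · exact isClosed_singleton.preimage Bk.continuous
    exact this h
  · intro h
    have hs := lp.hasSum_single (p := 2) (by norm_num) z
    refine (Submodule.isClosed_topologicalClosure _).mem_of_tendsto hs
      (Filter.Eventually.of_forall fun s => Submodule.sum_mem _ ?_)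
    rintro ⟨n, j⟩ _
    rw [single_eq]
    cases n with
    | zero => exact Submodule.smul_mem _ _ (e_TT j)
    | succ n => rw [← Bk_ap, h]; simp

noncomputable def Cp : L2 →L[ℂ] L2 := ContinuousLinearMap.id ℂ L2 - Af ∘L Bk

lemma adm : Admissible Af Bw 1 Cp := by
  have h : TT Bw 1 = SP Af 1 := by ext z; rw [mem_TT, mem_SP]
  refine ⟨ContinuousLinearEquiv.ofEq _ _ h, fun t => ?_, fun y hy => ?_⟩
  · show (t : L2) - Af (Bk t) = t
    rw [(mem_TT _).1 t.2, map_zero, sub_zero]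
  · show y - Af (Bk y) = 0
    rw [sub_eq_zero]
    ext1; funext ⟨n, j⟩
    cases n with
    | zero => rw [Af0, ← inner_e]; exact (Submodule.mem_orthogonal _ _).1 hy _ (e_TT j)
    | succ n => rw [Af1, Bk_ap]

lemma notD : ¬ Drazin (MC Af Bw Cp) := by
  rintro ⟨-, h⟩
  obtain ⟨k, -, hk⟩ := sInf_ex h
  have hi : Function.Injective (MC Af Bw Cp) := by
    rw [injective_iff_map_eq_zero]
    rintro ⟨x, y⟩ hxy
    rw [MC_apply] at hxy
    have h1 : Bk y = 0 := Dg_inj (congrArg Prod.snd hxy)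
    have h2 : Af x + (y - Af (Bk y)) = 0 := congrArg Prod.fst hxy
    rw [h1, map_zero, sub_zero] at h2
    have h3 : x = 0 := by
      have := congrArg Bk h2
      rwa [map_add, BkAf, h1, add_zero, map_zero] at this
    rw [h3, map_zero, zero_add] at h2
    rw [h3, h2]; rfl
  have hs : Function.Surjective Bw := by
    intro y
    have : (MC Af Bw Cp)^[k] (0, y) ∈ R (MC Af Bw Cp) (k + 1) := by
      rw [hk, mem_R]; exact ⟨_, rfl⟩
    obtain ⟨w, hw⟩ := (mem_R _).1 this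
    rw [Function.iterate_succ_apply] at hw
    exact ⟨w.2, congrArg Prod.snd (hi.iterate k hw)⟩
  obtain ⟨c, -, hc⟩ := Bw.exists_preimage_norm_le hs
  obtain ⟨j, hj⟩ := exists_nat_gt c
  obtain ⟨x, hx, hx'⟩ := hc (e (0, j))
  have h1 : ‖e (0, j)‖ = 1 := by unfold e; rw [lp.norm_single (by norm_num)]; simp
  have h2 : wt (0, j) * x (1, j) = 1 := by
    have : Bw x (0, j) = e (0, j) (0, j) := by rw [hx]
    rw [Bw_ap, Dg_ap, Bk_ap, e_ap] at this
    simpa using this
  have h3 : x (1, j) = ((j + 1 : ℕ) : ℂ) := by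
    have h4 : ((j : ℂ) + 1) ≠ 0 := Nat.cast_add_one_ne_zero _
    simp only [wt, if_true] at h2
    push_cast
    field_simp at h2
    exact h2
  have h4 := lp.norm_apply_le_norm (by norm_num) x (1, j)
  rw [h3, Complex.norm_natCast] at h4
  rw [h1] at hx'
  push_cast at h4
  linarith

lemma sepL2 : Sep L2 := by
  constructor
  · rw [← TopologicalSpace.isSeparable_univ_iff]
    refine ((Set.countable_range e).isSeparable.span (R := ℂ)).closure.mono fun z _ => ?_
    have hs := lp.hasSum_single (p := 2) (by norm_num) z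
    refine mem_closure_of_tendsto hs
      (Filter.Eventually.of_forall fun s => Submodule.sum_mem _ ?_)
    intro i _
    rw [single_eq]
    exact Submodule.smul_mem _ _ (Submodule.subset_span ⟨i, rfl⟩)
  · intro h
    exact Module.Finite.not_linearIndependent_of_infinite _ e_li

end Q1

theorem result :
    (¬ ∀ (H K : Type) [NormedAddCommGroup H] [InnerProductSpace ℂ H] [CompleteSpace H]
      [NormedAddCommGroup K] [InnerProductSpace ℂ K] [CompleteSpace K]
      (A : H →L[ℂ] H) (B : K →L[ℂ] K) (p : ℕ) (C : K →L[ℂ] H), Sep H → Sep K →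
      LeftDrazin A → dsc B < ⊤ → CondIII A B → 1 ≤ p → asc A ≤ p → dsc B ≤ p →
      Admissible A B p C → Drazin (MC A B C)) ∧
    (∀ (H K : Type) [NormedAddCommGroup H] [InnerProductSpace ℂ H] [CompleteSpace H]
      [NormedAddCommGroup K] [InnerProductSpace ℂ K] [CompleteSpace K]
      (A : H →L[ℂ] H) (B : K →L[ℂ] K) (p : ℕ) (C : K →L[ℂ] H), Sep H → Sep K →
      asc A < ⊤ → RightDrazin B → CondIII A B → 1 ≤ p → asc A ≤ p → dsc B ≤ p →
      CondE A B p → Admissible A B p C → Drazin (MC A B C)) := by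
  refine ⟨fun h => notD (h L2 L2 Af Bw 1 Cp sepL2 sepL2 leftD
    (dsc_Bw.trans_lt (ENat.natCast_lt_top 1)) cond3 le_rfl (by rw [asc_Af]; simp) dsc_Bw adm), ?_⟩
  intro H K _ _ _ _ _ _ A B p C _ _ _ hB _ hp hA hB' hE hC
  exact q2 hA hB hB' hp hE.1 hC

end Pool.Agent.Results.MP_632fda_an.Weakenings
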